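import Pool.Agent.ARC.Stmts
import Pool.Agent.Helper92_SZG.THG

/-!
# Squad ARC, row THW: theta functions give the data, with the weight at the archimedean place

The proof copies `Helper92_SZG/THG.lean` (row THG of squad SZG) and adds the last claim.
-/

set_option autoImplicit false

namespace Pool.Agent.ARC.H45

open scoped BigOperators
open Pool.Agent.THS Pool.Agent.ZES Pool.Agent.ARC
open Pool.Agent.SZG (Ch Idx gam QS WX Wf Xf Mp FF Bx Row lft Zz IM RG)
open Pool.Agent.SZG.H92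

theorem thw (tou : THS.TouStatement) (scg : SZG.ScgStmt) : ThwStmt := by
  intro g K _ φ v hv τ hτ z l hl hN x hx0 hμ'
  obtain ⟨rr, -, par, perd, ncz, -⟩ := tou g τ hτ
  choose μ hμ using hμ'
  have hφ : Function.Injective φ := φ.injective
  have hlC : (l : ℂ) ≠ 0 := by exact_mod_cast hl.ne'
  have hμ0 : ∀ k, μ k ≠ 0 := by
    intro k hk
    refine hx0 k (funext fun ab => hφ ?_)
    rw [hμ k ab, hk, zero_mul, Pi.zero_apply, map_zero]
  obtain ⟨θ, hθ⟩ : ∃ θ : Idx g → Ch g → ℂ, ∀ k c, θ k c = Thc τ c (gam τ z l k) :=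
    ⟨_, fun _ _ => rfl⟩
  obtain ⟨V, hV⟩ : ∃ V : Idx g → Ch g × Ch g → ℂ, ∀ k ab, V k ab =
      Vab τ ab.1 ab.2 (gam τ z l k) := ⟨_, fun _ _ => rfl⟩
  have hθne : ∀ k, ∃ c, θ k c ≠ 0 := by
    intro k
    obtain ⟨c, hc⟩ := ncz (gam τ z l k)
    exact ⟨c, by rw [hθ]; exact hc⟩
  have hθev : ∀ k c, θ (-k) c = θ k c := by
    intro k c
    rw [hθ, hθ, gam_neg, par]
  have hVV : ∀ a b i j, V i (a, b) * V j (a, b) = RG θ a b i j := by
    intro a b i j
    have h1 := rr a b (gam τ z l i) (gam τ z l j)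
    have h2 : gam τ z l (i + j) = fun r => gam τ z l i r + gam τ z l j r := gam_add τ z l i j
    have h3 : gam τ z l (i - j) = fun r => gam τ z l i r - gam τ z l j r := by
      rw [sub_eq_add_neg, gam_add, gam_neg]
      funext r
      ring
    unfold RG
    simp only [hV, hθ, h2, h3]
    exact h1
  obtain ⟨l0, B, T, s, κ, hl0, hs, hκ, hBs, hBa, hT, hRG⟩ := scg g K (Idx g) φ θ V x μ hθne hθev
    hVV (fun k ab => by rw [hμ, hV]) hμ0
  -- the bilinear form
  have hBa2 : ∀ i j k, B i (j + k) = B i j + B i k := by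
    intro i j k
    rw [hBs i (j + k), hBa, hBs j i, hBs k i]
  have hB0 : ∀ k, B 0 k = 0 := by
    intro k
    have h1 := hBa 0 0 k
    rw [add_zero] at h1
    have h2 : B 0 k + 0 = B 0 k + B 0 k := by rw [add_zero]; exact h1
    exact (add_left_cancel h2).symm
  have hBneg : ∀ i k, B (-i) k = - B i k := by
    intro i k
    have h1 := hBa i (-i) k
    rw [add_neg_cancel, hB0] at h1
    exact eq_neg_of_add_eq_zero_right h1.symm
  have hBn : ∀ (n : ℕ) i k, B (n • i) k = n * B i k := by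
    intro n i k
    induction n with
    | zero => rw [zero_smul, hB0]; simp
    | succ n ih => rw [succ_nsmul, hBa, ih]; push_cast; ring
  have hBn2 : ∀ (n : ℕ) i k, B i (n • k) = n * B i k := by
    intro n i k
    rw [hBs, hBn, hBs]
  have hBsq : ∀ i j, B (i + j) (i + j) = B i i + 2 * B j i + B j j := by
    intro i j
    rw [hBa, hBa2, hBa2, hBs i j]
    ring
  have hθ2 : ∀ i c, θ (i + i) c = Thc τ c (fun r => 2 * gam τ z l i r) := by
    intro i c
    rw [hθ, gam_add]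
    congr 1
    funext r
    ring
  have hT0 : ∀ k, ∃ c, T k c ≠ 0 := by
    intro k
    obtain ⟨c, hc⟩ := hθne (k + k)
    refine ⟨c, fun h => ?_⟩
    have h1 := hT k c
    rw [h, map_zero] at h1
    exact mul_ne_zero (mul_ne_zero hl0 (Complex.exp_ne_zero _)) hc h1.symm
  -- periods
  obtain ⟨Cf, hCf⟩ : ∃ Cf : Idx g → (Fin g → ℤ) → ℂ, ∀ m Q, Cf m Q = Complex.exp (B m m -
      2 * Real.pi * Complex.I * ∑ i, ∑ j, (Q i : ℂ) * τ i j * (Q j : ℂ)) := ⟨_, fun _ _ => rfl⟩
  obtain ⟨Ef, hEf⟩ : ∃ Ef : Idx g → (Fin g → ℤ) → Idx g → ℂ, ∀ m Q i, Ef m Q i =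
      Complex.exp (2 * B m i - 8 * Real.pi * Complex.I * ∑ r, (Q r : ℂ) * gam τ z l i r) :=
    ⟨_, fun _ _ _ => rfl⟩
  have hper : ∀ (m : Idx g) (P Q : Fin g → ℤ),
      (∀ r, 2 * gam τ z l m r = (P r : ℂ) + ∑ j, τ r j * (Q j : ℂ)) → ∀ i c,
      φ (T (i + m) c) = Cf m Q * Ef m Q i * φ (T i c) := by
    intro m P Q hPQ i c
    have h1 := perd c (fun r => 2 * gam τ z l i r) P Q
    have h2 : (fun r => 2 * gam τ z l (i + m) r) =
        fun r => 2 * gam τ z l i r + ((P r : ℂ) + ∑ j, τ r j * (Q j : ℂ)) := by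
      funext r
      rw [← hPQ r, gam_add]
      ring
    rw [hT, hT, hθ2, hθ2, h2, h1, hBsq, hCf, hEf]
    have h3 : ∑ r, (Q r : ℂ) * (2 * gam τ z l i r) = 2 * ∑ r, (Q r : ℂ) * gam τ z l i r := by
      rw [Finset.mul_sum]
      refine Finset.sum_congr rfl fun r _ => ?_
      ring
    rw [h3]
    have h4 : Complex.exp (B i i + 2 * B m i + B m m) *
        Complex.exp (-(2 * Real.pi * Complex.I * ∑ i, ∑ j, (Q i : ℂ) * τ i j * (Q j : ℂ)) -
          4 * Real.pi * Complex.I * (2 * ∑ r, (Q r : ℂ) * gam τ z l i r)) =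
        Complex.exp (B m m - 2 * Real.pi * Complex.I *
          ∑ i, ∑ j, (Q i : ℂ) * τ i j * (Q j : ℂ)) *
        Complex.exp (2 * B m i - 8 * Real.pi * Complex.I * ∑ r, (Q r : ℂ) * gam τ z l i r) *
        Complex.exp (B i i) := by
      rw [← Complex.exp_add, ← Complex.exp_add, ← Complex.exp_add]
      congr 1
      ring
    linear_combination (l0 * Thc τ c (fun r => 2 * gam τ z l i r)) * h4
  have hC0 : ∀ m Q, Cf m Q ≠ 0 := fun m Q => by rw [hCf]; exact Complex.exp_ne_zero _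
  have hE0 : ∀ m Q i, Ef m Q i ≠ 0 := fun m Q i => by rw [hEf]; exact Complex.exp_ne_zero _
  have hEz : ∀ m Q, Ef m Q 0 = 1 := by
    intro m Q
    rw [hEf, hBs, hB0, gam_zero]
    simp
  have hCr : ∀ (m : Idx g) (P Q : Fin g → ℤ),
      (∀ r, 2 * gam τ z l m r = (P r : ℂ) + ∑ j, τ r j * (Q j : ℂ)) →
      ∀ c, T 0 c ≠ 0 → Cf m Q = φ (T m c / T 0 c) := by
    intro m P Q hPQ c hc
    have h1 := hper m P Q hPQ 0 c
    rw [zero_add, hEz, mul_one] at h1
    rw [map_div₀, h1]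
    have : φ (T 0 c) ≠ 0 := fun h => hc (hφ (by rw [h, map_zero]))
    field_simp
  have hEr : ∀ (m : Idx g) (P Q : Fin g → ℤ),
      (∀ r, 2 * gam τ z l m r = (P r : ℂ) + ∑ j, τ r j * (Q j : ℂ)) →
      ∀ c, T 0 c ≠ 0 → ∀ i c', T i c' ≠ 0 →
      Ef m Q i = φ (T (i + m) c' / T i c' / (T m c / T 0 c)) := by
    intro m P Q hPQ c hc i c' hc'
    have h1 := hper m P Q hPQ i c'
    have h2 := hCr m P Q hPQ c hc
    rw [map_div₀, ← h2, map_div₀, h1]
    have h3 : φ (T i c') ≠ 0 := fun h => hc' (hφ (by rw [h, map_zero]))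
    have h4 := hC0 m Q
    field_simp
  obtain ⟨c0, hc0⟩ := hT0 0
  choose cc hcc using hT0
  obtain ⟨c, hc⟩ : ∃ c : Idx g → K, ∀ m, c m = T m c0 / T 0 c0 := ⟨_, fun _ => rfl⟩
  obtain ⟨e, he⟩ : ∃ e : Idx g → Idx g → K, ∀ m i, e m i =
      T (i + m) (cc i) / T i (cc i) / (T m c0 / T 0 c0) := ⟨_, fun _ _ => rfl⟩
  have hcφ : ∀ (m : Idx g) (P Q : Fin g → ℤ),
      (∀ r, 2 * gam τ z l m r = (P r : ℂ) + ∑ j, τ r j * (Q j : ℂ)) → φ (c m) = Cf m Q := by
    intro m P Q hPQ
    rw [hc, hCr m P Q hPQ c0 hc0]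
  have heφ : ∀ (m : Idx g) (P Q : Fin g → ℤ),
      (∀ r, 2 * gam τ z l m r = (P r : ℂ) + ∑ j, τ r j * (Q j : ℂ)) → ∀ i,
      φ (e m i) = Ef m Q i := by
    intro m P Q hPQ i
    rw [he, hEr m P Q hPQ c0 hc0 i (cc i) (hcc i)]
  have ne_of_map : ∀ {y : K}, φ y ≠ 0 → y ≠ 0 := by
    intro y hy h
    exact hy (by rw [h, map_zero])
  obtain ⟨N, hN0, pz, qz, hpq⟩ := hN
  have hgam : ∀ i : Idx g, ∀ r, (l : ℂ) * gam τ z l i r =
      (l : ℂ) * (i.1 : ℂ) * z r + ((i.2.1 r : ℂ) + ∑ j, τ r j * (i.2.2 j : ℂ)) := by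
    intro i r
    unfold gam
    field_simp
  have hmemL : ∀ i : Idx g, InLat τ (fun r => 2 * gam τ z l ((N * l) • i) r) := by
    intro i
    refine ⟨fun r => 2 * (l * i.1 * pz r + N * i.2.1 r), fun r => 2 * (l * i.1 * qz r + N * i.2.2 r),
      fun r => ?_⟩
    rw [gam_nsmul]
    simp only
    have h1 : (2 : ℂ) * (((N * l : ℕ) : ℂ) * gam τ z l i r) =
        2 * ((l : ℂ) * (i.1 : ℂ) * ((N : ℂ) * z r) +
          (N : ℂ) * ((i.2.1 r : ℂ) + ∑ j, τ r j * (i.2.2 j : ℂ))) := by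
      have h2 := hgam i r
      push_cast
      linear_combination (2 * (N : ℂ)) * h2
    have h0 : (N : ℂ) * z r = (pz r : ℂ) + ∑ j, τ r j * (qz j : ℂ) := hpq r
    rw [h1, h0]
    push_cast
    have h3 : ∑ j, τ r j * (2 * ((l : ℂ) * (i.1 : ℂ) * (qz j : ℂ) + (N : ℂ) * (i.2.2 j : ℂ))) =
        2 * ((l : ℂ) * (i.1 : ℂ) * ∑ j, τ r j * (qz j : ℂ) +
          (N : ℂ) * ∑ j, τ r j * (i.2.2 j : ℂ)) := by
      rw [Finset.mul_sum, Finset.mul_sum, ← Finset.sum_add_distrib, Finset.mul_sum]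
      refine Finset.sum_congr rfl fun j _ => ?_
      ring
    rw [h3]
    ring
  refine ⟨N * l, L0 τ z l, c, e, s, T, fun i ab => κ i * x (i + i) ab, ?_, ?_, ?_, ?_, ?_⟩
  · refine
      { hE := Nat.mul_pos hN0 hl
        mem := ?_
        s0 := hs
        T0 := fun i h => hcc i (by rw [h]; rfl)
        x0 := ?_
        even := ?_
        rie := hRG
        cne := ?_
        ene := ?_
        per := ?_
        eadd := ?_ }
    · intro i
      rw [mem_L0]
      exact hmemL i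
    · intro i h
      refine hx0 (i + i) (funext fun ab => ?_)
      have h1 := congrFun h ab
      simp only [Pi.zero_apply] at h1 ⊢
      exact (mul_eq_zero.1 h1).resolve_left (hκ i)
    · intro i a
      refine hφ ?_
      rw [hT, hT]
      have h1 : B (-i) (-i) = B i i := by rw [hBneg, hBs, hBneg]; ring
      have h2 : -i + -i = -(i + i) := by abel
      rw [h1, h2, hθev]
    · rintro m ⟨P, Q, hPQ⟩
      apply ne_of_map
      rw [hcφ m P Q hPQ]
      exact hC0 m Q
    · rintro m ⟨P, Q, hPQ⟩ i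
      apply ne_of_map
      rw [heφ m P Q hPQ]
      exact hE0 m Q i
    · rintro m ⟨P, Q, hPQ⟩ i a
      refine hφ ?_
      rw [map_mul, map_mul, hcφ m P Q hPQ, heφ m P Q hPQ]
      exact hper m P Q hPQ i a
    · rintro m ⟨P, Q, hPQ⟩ i j
      refine hφ ?_
      rw [map_mul, heφ m P Q hPQ, heφ m P Q hPQ, heφ m P Q hPQ, hEf, hEf, hEf, ← Complex.exp_add,
        hBa2, gam_add]
      congr 1
      simp only [mul_add, Finset.sum_add_distrib]
      ring
  · intro P Q
    rw [mem_L0]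
    refine ⟨fun r => 2 * P r, fun r => 2 * Q r, fun r => ?_⟩
    unfold gam
    simp only [Int.cast_zero, zero_mul, zero_add]
    push_cast
    have h1 : ∑ j, τ r j * ((l : ℂ) * (Q j : ℂ)) = (l : ℂ) * ∑ j, τ r j * (Q j : ℂ) := by
      rw [Finset.mul_sum]
      refine Finset.sum_congr rfl fun j _ => ?_
      ring
    have h2 : ∑ j, τ r j * (2 * (Q j : ℂ)) = 2 * ∑ j, τ r j * (Q j : ℂ) := by
      rw [Finset.mul_sum]
      refine Finset.sum_congr rfl fun j _ => ?_
      ring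
    rw [h1, h2]
    field_simp
  · intro i
    exact ⟨κ i, hκ i, fun ab => rfl⟩
  · refine ⟨fun k => l0 * Complex.exp ((l : ℂ) ^ 2 * (k : ℂ) ^ 2 * B (Zz g) (Zz g)),
      fun p q => Complex.exp (B ((0, p, q) : Idx g) ((0, p, q) : Idx g)),
      fun k => mul_ne_zero hl0 (Complex.exp_ne_zero _), fun p q => Complex.exp_ne_zero _, ?_⟩
    intro p q k a
    obtain ⟨b, hb⟩ : ∃ b : Idx g, b = ((0, p, q) : Idx g) := ⟨_, rfl⟩
    rw [← hb]
    have hgZ : gam τ z l (Zz g) = z := by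
      funext r
      unfold gam Zz
      simp
    have hgb : ∀ r, gam τ z l b r = ((p r : ℂ) + ∑ j, τ r j * (q j : ℂ)) / (l : ℂ) := by
      intro r
      rw [hb]
      unfold gam
      simp
    have hlb : ∀ r, 2 * gam τ z l (l • b) r =
        (((2 * p r : ℤ)) : ℂ) + ∑ j, τ r j * (((2 * q j : ℤ)) : ℂ) := by
      intro r
      rw [gam_nsmul]
      simp only
      rw [hgb]
      push_cast
      have h2 : ∑ j, τ r j * (2 * (q j : ℂ)) = 2 * ∑ j, τ r j * (q j : ℂ) := by
        rw [Finset.mul_sum]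
        refine Finset.sum_congr rfl fun j _ => ?_
        ring
      rw [h2]
      field_simp
    have he1 : φ (e (l • b) (Zz g)) =
        Complex.exp (2 * ((l : ℂ) * B b (Zz g)) - 16 * Real.pi * Complex.I * ∑ r, (q r : ℂ) * z r) := by
      rw [heφ (l • b) (fun r => 2 * p r) (fun r => 2 * q r) hlb, hEf, hBn, hgZ]
      congr 2
      push_cast
      have h2 : ∑ r, 2 * (q r : ℂ) * z r = 2 * ∑ r, (q r : ℂ) * z r := by
        rw [Finset.mul_sum]
        refine Finset.sum_congr rfl fun j _ => ?_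
        ring
      rw [h2]
      ring
    unfold Mp
    rw [map_mul, map_pow, map_inv₀, he1, hT, hθ2, hBsq, hBn, hBn2, hBn2]
    have hg2 : (fun r => 2 * gam τ z l ((l * k) • Zz g + b) r) =
        fun r => 2 * (l : ℂ) * ((k : ℂ) * z r) +
          2 * ((p r : ℂ) + ∑ j, τ r j * (q j : ℂ)) / (l : ℂ) := by
      funext r
      rw [gam_add, gam_nsmul, hgZ]
      simp only
      rw [hgb]
      push_cast
      ring
    rw [hg2]
    unfold FF
    have hex : (Complex.exp (2 * ((l : ℂ) * B b (Zz g)) -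
          16 * Real.pi * Complex.I * ∑ r, (q r : ℂ) * z r))⁻¹ ^ k *
        Complex.exp (((l * k : ℕ) : ℂ) * (((l * k : ℕ) : ℂ) * B (Zz g) (Zz g)) +
          2 * (((l * k : ℕ) : ℂ) * B b (Zz g)) + B b b) =
        Complex.exp ((l : ℂ) ^ 2 * (k : ℂ) ^ 2 * B (Zz g) (Zz g)) * Complex.exp (B b b) *
        Complex.exp (16 * Real.pi * Complex.I * ∑ i, (q i : ℂ) * ((k : ℂ) * z i)) := by
      rw [← Complex.exp_neg, ← Complex.exp_nat_mul, ← Complex.exp_add, ← Complex.exp_add,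
        ← Complex.exp_add]
      congr 1
      have h2 : ∑ i, (q i : ℂ) * ((k : ℂ) * z i) = (k : ℂ) * ∑ r, (q r : ℂ) * z r := by
        rw [Finset.mul_sum]
        refine Finset.sum_congr rfl fun j _ => ?_
        ring
      rw [h2]
      push_cast
      ring
    subst hb
    linear_combination (l0 * Thc τ a (fun r => 2 * (l : ℂ) * ((k : ℂ) * z r) +
          2 * ((p r : ℂ) + ∑ j, τ r j * (q j : ℂ)) / (l : ℂ))) * hex
  · refine ⟨‖l0‖, norm_pos_iff.2 hl0, ?_⟩
    intro i y hy a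
    have hE0 : 0 < N * l := Nat.mul_pos hN0 hl
    have hER : (0 : ℝ) < ((N * l : ℕ) : ℝ) := by exact_mod_cast hE0
    obtain ⟨E, hE⟩ : ∃ E : ℕ, E = N * l := ⟨_, rfl⟩
    rw [← hE] at hE0 hER ⊢
    have hmem : InLat τ (fun r => 2 * gam τ z l (E • i) r) := by
      have h2 := hmemL i
      rwa [← hE] at h2
    obtain ⟨P, Q, hPQ⟩ := hmem
    have hgn : ∀ r, gam τ z l (E • i) r = (E : ℂ) * gam τ z l i r := fun r => by
      rw [gam_nsmul]
    -- imaginary parts
    have him : ∀ r, 2 * (E : ℝ) * Yv τ y r = ∑ j, (τ r j).im * (Q j : ℝ) := by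
      intro r
      have h1 : 2 * gam τ z l (E • i) r = (P r : ℂ) + ∑ j, τ r j * (Q j : ℂ) := hPQ r
      rw [hgn] at h1
      have h2 := congrArg Complex.im h1
      have h3 : (2 * ((E : ℂ) * gam τ z l i r)).im = 2 * ((E : ℝ) * (gam τ z l i r).im) := by
        have e1 : (2 * ((E : ℂ) * gam τ z l i r)) = (((2 * (E : ℝ) : ℝ)) : ℂ) * gam τ z l i r := by
          push_cast; ring
        rw [e1, Complex.im_ofReal_mul]; ring
      rw [h3, hy r, Complex.add_im, Complex.im_sum, Complex.intCast_im, zero_add] at h2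
      rw [← mul_assoc] at h2
      rw [h2]
      refine Finset.sum_congr rfl fun j _ => ?_
      have e2 : ((Q j : ℤ) : ℂ) = (((Q j : ℝ)) : ℂ) := by push_cast; rfl
      rw [e2, Complex.im_mul_ofReal]
    have hQ : ∀ j, (Q j : ℝ) = 2 * (E : ℝ) * y j := by
      have hinj := Matrix.mulVec_injective_of_isUnit (hτ.2.isUnit)
      have h2 : (τ.map Complex.im).mulVec (fun j => (Q j : ℝ)) =
          (τ.map Complex.im).mulVec (fun j => 2 * (E : ℝ) * y j) := by
        funext r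
        have h3 := him r
        unfold Matrix.mulVec dotProduct
        simp only [Matrix.map_apply]
        rw [← h3]
        unfold Yv
        rw [Finset.mul_sum]
        refine Finset.sum_congr rfl fun j _ => ?_
        ring
      intro j
      exact congrFun (hinj h2) j
    have hsum : (∑ r, (Q r : ℂ) * gam τ z l i r).im = 2 * (E : ℝ) * Yq τ y := by
      rw [Complex.im_sum]
      have e3 : ∀ r, ((Q r : ℂ) * gam τ z l i r).im = 2 * (E : ℝ) * (y r * Yv τ y r) := by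
        intro r
        have e2 : ((Q r : ℤ) : ℂ) = (((Q r : ℝ)) : ℂ) := by push_cast; rfl
        rw [e2, Complex.im_ofReal_mul, hy r, hQ r]; ring
      rw [Finset.sum_congr rfl fun r _ => e3 r, ← Finset.mul_sum]
      congr 1
      unfold Yq Yv
      refine Finset.sum_congr rfl fun r _ => ?_
      rw [Finset.mul_sum]
      refine Finset.sum_congr rfl fun j _ => ?_
      ring
    have hBre : (2 * B (E • i) i - 8 * Real.pi * Complex.I * ∑ r, (Q r : ℂ) * gam τ z l i r).re =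
        2 * (E : ℝ) * ((B i i).re + 8 * Real.pi * Yq τ y) := by
      rw [hBn, Complex.sub_re]
      have e1 : (2 * ((E : ℂ) * B i i)).re = 2 * (E : ℝ) * (B i i).re := by
        have e2 : (2 * ((E : ℂ) * B i i)) = (((2 * (E : ℝ) : ℝ)) : ℂ) * B i i := by
          push_cast; ring
        rw [e2, Complex.re_ofReal_mul]
      have e3 : (8 * Real.pi * Complex.I * ∑ r, (Q r : ℂ) * gam τ z l i r).re =
          -(8 * Real.pi * (∑ r, (Q r : ℂ) * gam τ z l i r).im) := by
        have e4 : (8 * Real.pi * Complex.I * ∑ r, (Q r : ℂ) * gam τ z l i r) =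
            (((8 * Real.pi : ℝ)) : ℂ) * (Complex.I * ∑ r, (Q r : ℂ) * gam τ z l i r) := by
          push_cast; ring
        rw [e4, Complex.re_ofReal_mul, Complex.I_mul_re]; ring
      rw [e1, e3, hsum]; ring
    have hv1 : v (e (E • i) i) = Real.exp (2 * (E : ℝ) * ((B i i).re + 8 * Real.pi * Yq τ y)) := by
      rw [hv, heφ (E • i) P Q hPQ i, hEf, Complex.norm_exp, hBre]
    have hW : Wf v E e i = Real.exp ((B i i).re + 8 * Real.pi * Yq τ y) := by
      unfold Wf
      rw [hv1, Real.log_exp]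
      congr 1
      field_simp
    rw [hv, hT, hθ2, norm_mul, norm_mul, Complex.norm_exp, hW, Real.exp_add]
    have h5 : Real.exp (8 * Real.pi * Yq τ y) * Real.exp (-(8 * Real.pi * Yq τ y)) = 1 := by
      rw [← Real.exp_add]; simp
    linear_combination (-(‖l0‖ * Real.exp (B i i).re * ‖Thc τ a (fun r => 2 * gam τ z l i r)‖)) * h5

end Pool.Agent.ARC.H45
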